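import Pool.Agent.R815.Root.Limit

/-!
# The root of the projective Fraisse limit of rooted trees with simple*-confluent maps
-/

set_option autoImplicit false

namespace Pool.Agent.Results.MP_274e27_gt.RootFixed

open Pool.Agent.R815.Root

/-- Let `F_1 ← F_2 ← ⋯` be an inverse sequence of finite rooted trees and simple*-confluent maps
as in the definition of the projective Fraisse limit, let `r` be the root of the limit, and let
`Space F α` be the quotient of the limit by its edge relation (which is an equivalence relation).
Then every homeomorphism of `Space F α` fixes the point given by `r`. In fact this point is the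
only point of `Space F α` every neighbourhood of which contains a connected neighbourhood. -/
theorem result (F : ℕ → RTree) (α : ∀ n, (F (n + 1)).V → (F n).V) (h : IsFraisseSeq F α) :
    Equivalence (EdgeRel F α) ∧
    ∀ r : Lim F α, (∀ n, r.1 n = (F n).root) →
      (∀ g : Space F α ≃ₜ Space F α, g (Quot.mk _ r) = Quot.mk _ r) ∧
      ∀ p : Space F α, (∀ W ∈ nhds p, ∃ N ∈ nhds p, N ⊆ W ∧ IsConnected N) ↔ p = Quot.mk _ r := by
  refine ⟨edge_equiv h, ?_⟩
  intro r hr
  have hr' : r = rootL h := Subtype.ext (funext hr)
  subst hr'
  have key : ∀ p : Space F α, CIK p ↔ p = Quot.mk _ (rootL h) := by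
    intro p
    constructor
    · intro hp
      obtain ⟨x, rfl⟩ := Quot.exists_rep p
      by_contra hne
      refine not_cik h (q := x) ?_ hp
      rintro rfl
      exact hne rfl
    · rintro rfl
      exact cik_root h
  refine ⟨fun g => ?_, key⟩
  exact (key _).1 ((cik_root h).map g)

end Pool.Agent.Results.MP_274e27_gt.RootFixed
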